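import Pool.Agent.Helper60.SVv.Sh
import Pool.Agent.Helper60.SVv.H1
import Pool.Agent.Helper22.AC.D3
import Pool.Agent.Helper22.AC.D6a

/-!
# SVv-H2: moments of the blocks, the centre c + R v (copy of Helper60.SV.H2)
-/

open MeasureTheory Real Set Filter Topology

set_option autoImplicit false

namespace Pool.Agent.Helper60.SVv

open Pool.Agent.Helper22.AE
open Pool.Agent.Helper22.AC
open Pool.Agent.Helper22.SC (erc Mom)
open Pool.Agent.Helper22.OV (shf)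
open Pool.Agent.Helper60.SV (da twelfth_ga)

private theorem k0c84 {β : ℝ} (hβ : 0 < β) : Continuous (fun α => k0 β α) := by
  unfold k0
  exact continuous_const.div (by fun_prop) (fun α => (by positivity : (0 : ℝ) < sin α ^ 2 + β ^ 2).ne')

private theorem k0n84 {β : ℝ} (hβ : 0 < β) (α : ℝ) : 0 ≤ k0 β α := by
  unfold k0
  positivity

private theorem young84 {p : ℕ} (hp : 1 ≤ p) {c g : ℝ} (hc : 0 ≤ c) (hg : 0 ≤ g) :
    ((p : ℝ) + 1) * c ^ p * g ≤ p * c ^ (p + 1) + g ^ (p + 1) := by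
  rcases hc.eq_or_lt with rfl | hc'
  · rw [zero_pow (by omega), zero_pow (by omega)]
    have := pow_nonneg hg (p + 1)
    linarith
  · have h := one_add_mul_le_pow (a := g / c - 1) (by have : 0 ≤ g / c := div_nonneg hg hc; linarith) (p + 1)
    rw [show 1 + (g / c - 1) = g / c by ring, div_pow, le_div_iff₀ (by positivity)] at h
    have e : (1 + ((p + 1 : ℕ) : ℝ) * (g / c - 1)) * c ^ (p + 1) =
        c ^ (p + 1) + (p + 1) * (c ^ p * g - c ^ (p + 1)) := by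
      push_cast
      field_simp
      ring
    rw [e] at h
    linarith

private theorem jens84 {X : Type*} [MeasurableSpace X] {μ : Measure X} {p : ℕ} (hp : 1 ≤ p) {w g : X → ℝ}
    (hw : ∀ x, 0 ≤ w x) (hg : ∀ x, 0 ≤ g x) (i0 : Integrable w μ) (i1 : Integrable (fun x => w x * g x) μ)
    (i6 : Integrable (fun x => w x * g x ^ (p + 1)) μ) :
    (∫ x, w x * g x ∂μ) ^ (p + 1) ≤ (∫ x, w x ∂μ) ^ p * ∫ x, w x * g x ^ (p + 1) ∂μ := by
  set W := ∫ x, w x ∂μ with hW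
  set I := ∫ x, w x * g x ∂μ with hI
  set J := ∫ x, w x * g x ^ (p + 1) ∂μ with hJ
  have hW0 : 0 ≤ W := integral_nonneg hw
  have hI0 : 0 ≤ I := integral_nonneg fun x => mul_nonneg (hw x) (hg x)
  have hJ0 : 0 ≤ J := integral_nonneg fun x => mul_nonneg (hw x) (pow_nonneg (hg x) _)
  have key : ∀ c : ℝ, 0 ≤ c → ((p : ℝ) + 1) * c ^ p * I ≤ p * c ^ (p + 1) * W + J := by
    intro c hc
    have h1 : ((p : ℝ) + 1) * c ^ p * I = ∫ x, ((p : ℝ) + 1) * c ^ p * (w x * g x) ∂μ := by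
      rw [integral_const_mul]
    have h2 : p * c ^ (p + 1) * W + J = ∫ x, (p * c ^ (p + 1) * w x + w x * g x ^ (p + 1)) ∂μ := by
      rw [integral_add (i0.const_mul _) i6, integral_const_mul]
    rw [h1, h2]
    refine integral_mono (i1.const_mul _) ((i0.const_mul _).add i6) fun x => ?_
    have h3 := mul_le_mul_of_nonneg_left (young84 hp hc (hg x)) (hw x)
    show ((p : ℝ) + 1) * c ^ p * (w x * g x) ≤ p * c ^ (p + 1) * w x + w x * g x ^ (p + 1)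
    linarith [h3]
  rcases hW0.eq_or_lt with hz | hpos
  · have hI' : I = 0 := by
      by_contra hne
      have hIp : 0 < I := lt_of_le_of_ne hI0 (Ne.symm hne)
      set c := max 1 ((J + 1) / I) with hc
      have hc1 : 1 ≤ c := le_max_left _ _
      have hc2 : (J + 1) / I ≤ c := le_max_right _ _
      have h4 := key c (by linarith)
      rw [← hz] at h4
      have h5 : c ≤ c ^ p := by
        calc c = c ^ 1 := (pow_one c).symm
          _ ≤ c ^ p := pow_le_pow_right₀ hc1 hp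
      have h6 : J + 1 ≤ c * I := (div_le_iff₀ hIp).1 hc2
      have h7 : c * I ≤ c ^ p * I := mul_le_mul_of_nonneg_right h5 hI0
      have h8 : 0 ≤ (p : ℝ) * (c ^ p * I) := by positivity
      nlinarith
    rw [hI', ← hz, zero_pow (by omega), zero_pow (by omega)]
    simp
  · have h4 := key (I / W) (by positivity)
    have h5 : I ^ (p + 1) / W ^ p ≤ J := by
      have e1 : ((p : ℝ) + 1) * (I / W) ^ p * I = (p + 1) * (I ^ (p + 1) / W ^ p) := by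
        rw [div_pow, pow_succ]
        ring
      have e2 : p * (I / W) ^ (p + 1) * W = p * (I ^ (p + 1) / W ^ p) := by
        rw [div_pow, pow_succ W]
        field_simp
      rw [e1, e2] at h4
      linarith
    rw [div_le_iff₀ (by positivity)] at h5
    linarith [h5, mul_comm J (W ^ p)]

private theorem ga_cont84 {H : ℝ → ℝ} (hH : ContDiff ℝ 2 H) (t : ℝ) : Continuous fun α => ga H α t := by
  unfold ga
  have h1 := hH.continuous
  have h2 : Continuous (deriv H) := hH.continuous_deriv (by norm_num)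
  fun_prop

/-- the modulus of the sum with coefficients depending on `α` -/
private noncomputable def T84 (H : ℝ → ℝ) (n : ℕ) (a : ℝ → ℤ × ℤ → ℂ) (q : (ℝ × ℝ) × ℝ) (α : ℝ) : ℝ :=
  ‖cs (blk n) (a α) (ga H α) q‖

private theorem T84_nonneg (H : ℝ → ℝ) (n : ℕ) (a : ℝ → ℤ × ℤ → ℂ) (q : (ℝ × ℝ) × ℝ) (α : ℝ) :
    0 ≤ T84 H n a q α := norm_nonneg _

private theorem T84_cont {H : ℝ → ℝ} (hH : ContDiff ℝ 2 H) (n : ℕ) {a : ℝ → ℤ × ℤ → ℂ}
    (ha : ∀ k, Continuous fun α => a α k) :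
    Continuous fun z : ((ℝ × ℝ) × ℝ) × ℝ => T84 H n a z.1 z.2 := by
  unfold T84 cs Fk
  refine (continuous_finsetSum _ fun k _ => ?_).norm
  have h1 := ga_cont84 hH (tk k)
  have h2 : Continuous fun z : ((ℝ × ℝ) × ℝ) × ℝ => ga H z.2 (tk k) := h1.comp continuous_snd
  have h3 : Continuous fun z : ((ℝ × ℝ) × ℝ) × ℝ => a z.2 k := (ha k).comp continuous_snd
  refine h3.mul (ee_cont.comp ?_)
  fun_prop

private theorem T84_le (H : ℝ → ℝ) (n : ℕ) {a : ℝ → ℤ × ℤ → ℂ} (ha : ∀ α k, ‖a α k‖ ≤ 1)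
    (q : (ℝ × ℝ) × ℝ) (α : ℝ) : T84 H n a q α ≤ 25 * 4 ^ n := by
  unfold T84 cs
  refine (norm_sum_le _ _).trans (le_trans ?_ (blk_card n))
  have h : ∀ k ∈ blk n, ‖a α k * ee (-((k.1 : ℝ) * q.1.1 + (k.2 : ℝ) * q.1.2 + q.2 * Fk (ga H α) k))‖ ≤ 1 := by
    intro k _
    rw [norm_mul, ee_norm, mul_one]
    exact ha α k
  refine (Finset.sum_le_card_nsmul _ _ _ h).trans ?_
  rw [nsmul_eq_mul, mul_one]

private def A84 (s : ℝ) : Set ℝ := Icc (-π) π ∩ {α | |sin α| ≤ s}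

private theorem A84_compact (s : ℝ) : IsCompact (A84 s) :=
  isCompact_Icc.inter_right (isClosed_le (by fun_prop) continuous_const)

private theorem k0_Icc84 {β : ℝ} (hβ : 0 < β) : ∫ y in Icc (-π) π, k0 β y ≤ 20 := by
  have h7 : ∫ y in Icc (-π) π, k0 β y = ∫ y in (-π)..π, k0 β y := by
    rw [intervalIntegral.integral_of_le (by linarith [pi_pos]), integral_Icc_eq_integral_Ioc]
  rw [h7]
  exact k0_int hβ

private theorem k0_A84 {β : ℝ} (hβ : 0 < β) (s : ℝ) : ∫ α in A84 s, k0 β α ≤ 20 := by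
  refine le_trans ?_ (k0_Icc84 hβ)
  exact setIntegral_mono_set ((k0c84 hβ).continuousOn.integrableOn_compact isCompact_Icc)
    (ae_of_all _ (k0n84 hβ)) (LE.le.eventuallyLE inter_subset_left)

private theorem Tα_cont84 {H : ℝ → ℝ} (hH : ContDiff ℝ 2 H) (n : ℕ) {a : ℝ → ℤ × ℤ → ℂ}
    (ha : ∀ k, Continuous fun α => a α k) (q : (ℝ × ℝ) × ℝ) : Continuous fun α => T84 H n a q α :=
  (T84_cont hH n ha).comp (Continuous.prodMk continuous_const continuous_id)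

private theorem split84 {H : ℝ → ℝ} (hH : ContDiff ℝ 2 H) (n : ℕ) {a : ℝ → ℤ × ℤ → ℂ}
    (hc : ∀ k, Continuous fun α => a α k) (ha : ∀ α k, ‖a α k‖ ≤ 1) {β s : ℝ} (hβ : 0 < β) (hs : 0 < s)
    (q : (ℝ × ℝ) × ℝ) :
    ∫ α in (-π)..π, k0 β α * T84 H n a q α ≤
      (∫ α in A84 s, k0 β α * T84 H n a q α) + β / s ^ 2 * (25 * 4 ^ n) * (2 * π) := by
  have fc : Continuous fun α => k0 β α * T84 H n a q α := (k0c84 hβ).mul (Tα_cont84 hH n hc q)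
  have fint : IntegrableOn (fun α => k0 β α * T84 H n a q α) (Icc (-π) π) :=
    fc.continuousOn.integrableOn_compact isCompact_Icc
  have hm : MeasurableSet {α : ℝ | |sin α| ≤ s} :=
    (isClosed_le (by fun_prop) continuous_const).measurableSet
  rw [intervalIntegral.integral_of_le (by linarith [pi_pos]), ← integral_Icc_eq_integral_Ioc,
    ← integral_inter_add_sdiff hm fint]
  refine add_le_add le_rfl ?_
  have h1 : ∀ α ∈ Icc (-π) π \ {α : ℝ | |sin α| ≤ s}, ‖k0 β α * T84 H n a q α‖ ≤ β / s ^ 2 * (25 * 4 ^ n) := by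
    rintro α ⟨-, hα⟩
    have hα' : s < |sin α| := not_le.1 hα
    rw [Real.norm_eq_abs, abs_of_nonneg (mul_nonneg (k0n84 hβ α) (T84_nonneg _ _ _ _ _))]
    refine mul_le_mul ?_ (T84_le H n ha q α) (T84_nonneg _ _ _ _ _) (by positivity)
    unfold k0
    refine div_le_div_of_nonneg_left hβ.le (by positivity) ?_
    have h2 : s ^ 2 ≤ sin α ^ 2 := by
      rw [← sq_abs (sin α)]
      exact pow_le_pow_left₀ hs.le hα'.le 2
    have h3 : 0 ≤ β ^ 2 := sq_nonneg _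
    linarith
  have h4 := norm_setIntegral_le_of_norm_le_const (μ := volume)
    (lt_of_le_of_lt (measure_mono sdiff_subset) (isCompact_Icc (a := -π) (b := π)).measure_lt_top) h1
  refine (le_abs_self _).trans (h4.trans ?_)
  refine mul_le_mul_of_nonneg_left ?_ (by positivity)
  have h5 : volume.real (Icc (-π) π) = 2 * π := by
    rw [Real.volume_real_Icc_of_le (by linarith [pi_pos])]
    ring
  rw [← h5]
  exact measureReal_mono sdiff_subset (isCompact_Icc.measure_lt_top.ne)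

private theorem pow84 {x : Fin 3 → ℝ} {L E : ℝ} (hx : ∀ i, 0 ≤ x i) (hL : 0 ≤ L) (hE : 0 ≤ E) (p : ℕ) :
    (L * ∑ i, x i + E) ^ (p + 1) ≤ 6 ^ (p + 1) * (L ^ (p + 1) * ∑ i, x i ^ (p + 1) + E ^ (p + 1)) := by
  have hS : 0 ≤ ∑ i, x i := Finset.sum_nonneg fun i _ => hx i
  have h1 : (L * ∑ i, x i + E) ^ (p + 1) ≤ 2 ^ (p + 1 - 1) * ((L * ∑ i, x i) ^ (p + 1) + E ^ (p + 1)) :=
    add_pow_le (mul_nonneg hL hS) hE (p + 1)
  have h2 := pow_sum_div_card_le_sum_pow (s := Finset.univ) (f := x) (fun i _ => hx i) p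
  rw [Finset.card_univ, Fintype.card_fin, div_le_iff₀ (by positivity)] at h2
  push_cast at h2
  have h3 : 0 ≤ ∑ i, x i ^ (p + 1) := Finset.sum_nonneg fun i _ => pow_nonneg (hx i) _
  rw [Nat.add_sub_cancel] at h1
  have h4 : (L * ∑ i, x i) ^ (p + 1) ≤ L ^ (p + 1) * ((∑ i, x i ^ (p + 1)) * 3 ^ p) := by
    rw [mul_pow]
    exact mul_le_mul_of_nonneg_left h2 (by positivity)
  have h5 : (2 : ℝ) ^ p * 3 ^ p ≤ 6 ^ (p + 1) := by
    rw [← mul_pow]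
    norm_num
    exact pow_le_pow_right₀ (by norm_num) (by omega)
  have h6 : (2 : ℝ) ^ p ≤ 6 ^ (p + 1) := by
    calc (2 : ℝ) ^ p ≤ 6 ^ p := pow_le_pow_left₀ (by norm_num) (by norm_num) p
      _ ≤ 6 ^ (p + 1) := pow_le_pow_right₀ (by norm_num) (by omega)
  have h7 : 0 ≤ L ^ (p + 1) * ∑ i, x i ^ (p + 1) := by positivity
  calc (L * ∑ i, x i + E) ^ (p + 1) ≤ 2 ^ p * ((L * ∑ i, x i) ^ (p + 1) + E ^ (p + 1)) := h1
    _ ≤ 2 ^ p * (L ^ (p + 1) * ((∑ i, x i ^ (p + 1)) * 3 ^ p) + E ^ (p + 1)) := by gcongr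
    _ = (2 ^ p * 3 ^ p) * (L ^ (p + 1) * ∑ i, x i ^ (p + 1)) + 2 ^ p * E ^ (p + 1) := by ring
    _ ≤ 6 ^ (p + 1) * (L ^ (p + 1) * ∑ i, x i ^ (p + 1)) + 6 ^ (p + 1) * E ^ (p + 1) :=
      add_le_add (mul_le_mul_of_nonneg_right h5 h7) (mul_le_mul_of_nonneg_right h6 (by positivity))
    _ = _ := by ring

private theorem fub84 {K : Set ((ℝ × ℝ) × ℝ)} (hK : IsCompact K) (s : ℝ) {F : ((ℝ × ℝ) × ℝ) × ℝ → ℝ}
    (hF : Continuous F) : ∫ q in K, ∫ α in A84 s, F (q, α) = ∫ α in A84 s, ∫ q in K, F (q, α) := by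
  have h : Integrable F ((volume.restrict K).prod (volume.restrict (A84 s))) := by
    rw [Measure.prod_restrict, ← Measure.volume_eq_prod]
    exact hF.continuousOn.integrableOn_compact (hK.prod (A84_compact s))
  exact integral_integral_swap h

private theorem fub84' {K : Set (ℝ × ℝ)} (hK : IsCompact K) (s : ℝ) {F : (ℝ × ℝ) × ℝ → ℝ}
    (hF : Continuous F) : ∫ q in K, ∫ α in A84 s, F (q, α) = ∫ α in A84 s, ∫ q in K, F (q, α) := by
  have h : Integrable F ((volume.restrict K).prod (volume.restrict (A84 s))) := by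
    rw [Measure.prod_restrict, ← Measure.volume_eq_prod]
    exact hF.continuousOn.integrableOn_compact (hK.prod (A84_compact s))
  exact integral_integral_swap h

private theorem da_cont84 {H : ℝ → ℝ} (hH : ContDiff ℝ 2 H) (Λ : ℝ) (n : ℕ) {a : ℝ → ℤ × ℤ → ℂ}
    (ha : ∀ k, Continuous fun α => a α k) (k : ℤ × ℤ) :
    Continuous fun α => da Λ n (ga H α) (a α) k := by
  unfold da Fk
  split_ifs
  · have h1 := ga_cont84 hH (tk k)
    refine (ha k).mul (Complex.continuous_ofReal.comp ?_)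
    exact (continuous_const.mul h1).div_const _
  · exact continuous_const

/-- the part near the origin of the integral of a power -/
private noncomputable def J84 (H : ℝ → ℝ) (s β : ℝ) (n p : ℕ) (a : ℝ → ℤ × ℤ → ℂ) (q : (ℝ × ℝ) × ℝ) : ℝ :=
  ∫ α in A84 s, k0 β α * T84 H n a q α ^ (p + 1)

private theorem gpow84 {H : ℝ → ℝ} (hH : ContDiff ℝ 2 H) {s C₀ : ℝ} (hs : 0 < s) (hC₀ : 0 < C₀) {p : ℕ} (hp : 1 ≤ p) :
    ∃ D : ℝ, 1 ≤ D ∧ ∀ (n : ℕ) (L β : ℝ), 0 < β → 0 ≤ L → L * (β * 4 ^ n) ≤ C₀ →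
      ∀ b : Fin 3 → ℝ → ℤ × ℤ → ℂ, (∀ i k, Continuous fun α => b i α k) → (∀ i α k, ‖b i α k‖ ≤ 1) → ∀ q,
        (L * ∑ i, ∫ α in (-π)..π, k0 β α * T84 H n (b i) q α) ^ (p + 1) ≤
          D * (L ^ (p + 1) * ∑ i, J84 H s β n p (b i) q + 1) := by
  set E : ℝ := 150 * π * C₀ / s ^ 2 with hE
  have hE0 : 0 ≤ E := by positivity
  refine ⟨6 ^ (p + 1) * (20 ^ p + E ^ (p + 1) + 1), ?_, ?_⟩
  · have h1 : (1 : ℝ) ≤ 6 ^ (p + 1) := one_le_pow₀ (by norm_num)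
    have h2 : (0 : ℝ) ≤ 20 ^ p + E ^ (p + 1) := by positivity
    nlinarith
  intro n L β hβ hL hLβ b hbc hb1 q
  set x : Fin 3 → ℝ := fun i => ∫ α in A84 s, k0 β α * T84 H n (b i) q α with hx
  have hx0 : ∀ i, 0 ≤ x i := fun i => integral_nonneg fun α => mul_nonneg (k0n84 hβ α) (T84_nonneg _ _ _ _ _)
  have hJ0 : ∀ i, 0 ≤ J84 H s β n p (b i) q := fun i =>
    integral_nonneg fun α => mul_nonneg (k0n84 hβ α) (pow_nonneg (T84_nonneg _ _ _ _ _) _)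
  have hint : ∀ h : ℝ → ℝ, Continuous h → Integrable h (volume.restrict (A84 s)) := fun h hh =>
    hh.continuousOn.integrableOn_compact (A84_compact s)
  have h1 : L * ∑ i, ∫ α in (-π)..π, k0 β α * T84 H n (b i) q α ≤ L * ∑ i, x i + E := by
    have h2 : ∑ i, ∫ α in (-π)..π, k0 β α * T84 H n (b i) q α ≤
        ∑ i : Fin 3, (x i + β / s ^ 2 * (25 * 4 ^ n) * (2 * π)) :=
      Finset.sum_le_sum fun i _ => split84 hH n (hbc i) (hb1 i) hβ hs q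
    rw [Finset.sum_add_distrib, Finset.sum_const, Finset.card_univ, Fintype.card_fin] at h2
    have h3 : L * (3 • (β / s ^ 2 * (25 * 4 ^ n) * (2 * π))) ≤ E := by
      have e : L * (3 • (β / s ^ 2 * (25 * 4 ^ n) * (2 * π))) = 150 * π * (L * (β * 4 ^ n)) / s ^ 2 := by
        rw [nsmul_eq_mul]
        push_cast
        ring
      rw [e, hE]
      gcongr
    calc L * ∑ i, ∫ α in (-π)..π, k0 β α * T84 H n (b i) q α
        ≤ L * (∑ i, x i + 3 • (β / s ^ 2 * (25 * 4 ^ n) * (2 * π))) := mul_le_mul_of_nonneg_left h2 hL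
      _ ≤ _ := by rw [mul_add]; linarith
  have h0 : 0 ≤ L * ∑ i, ∫ α in (-π)..π, k0 β α * T84 H n (b i) q α :=
    mul_nonneg hL (Finset.sum_nonneg fun i _ => intervalIntegral.integral_nonneg (by linarith [pi_pos])
      fun α _ => mul_nonneg (k0n84 hβ α) (T84_nonneg _ _ _ _ _))
  have h4 : ∀ i, x i ^ (p + 1) ≤ 20 ^ p * J84 H s β n p (b i) q := by
    intro i
    have hT := Tα_cont84 hH n (hbc i) q
    have h5 := jens84 (μ := volume.restrict (A84 s)) hp (w := fun α => k0 β α) (g := fun α => T84 H n (b i) q α)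
      (k0n84 hβ) (fun α => T84_nonneg _ _ _ _ _) (hint _ (k0c84 hβ)) (hint _ ((k0c84 hβ).mul hT))
      (hint _ ((k0c84 hβ).mul (hT.pow _)))
    refine h5.trans (mul_le_mul_of_nonneg_right ?_ (hJ0 i))
    exact pow_le_pow_left₀ (integral_nonneg (k0n84 hβ)) (k0_A84 hβ s) p
  have h6 : ∑ i, x i ^ (p + 1) ≤ 20 ^ p * ∑ i, J84 H s β n p (b i) q := by
    rw [Finset.mul_sum]
    exact Finset.sum_le_sum fun i _ => h4 i
  have hS0 : 0 ≤ ∑ i, J84 H s β n p (b i) q := Finset.sum_nonneg fun i _ => hJ0 i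
  have hLp : 0 ≤ L ^ (p + 1) := pow_nonneg hL _
  calc (L * ∑ i, ∫ α in (-π)..π, k0 β α * T84 H n (b i) q α) ^ (p + 1)
      ≤ (L * ∑ i, x i + E) ^ (p + 1) := pow_le_pow_left₀ h0 h1 _
    _ ≤ 6 ^ (p + 1) * (L ^ (p + 1) * ∑ i, x i ^ (p + 1) + E ^ (p + 1)) := pow84 hx0 hL hE0 p
    _ ≤ 6 ^ (p + 1) * (L ^ (p + 1) * (20 ^ p * ∑ i, J84 H s β n p (b i) q) + E ^ (p + 1)) := by gcongr
    _ ≤ 6 ^ (p + 1) * ((20 ^ p + E ^ (p + 1) + 1) * (L ^ (p + 1) * ∑ i, J84 H s β n p (b i) q + 1)) := by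
      refine mul_le_mul_of_nonneg_left ?_ (by positivity)
      have h7 : 0 ≤ L ^ (p + 1) * ∑ i, J84 H s β n p (b i) q := mul_nonneg hLp hS0
      have h8 : 0 ≤ E ^ (p + 1) := pow_nonneg hE0 _
      have h9 : (0 : ℝ) ≤ 20 ^ p := by positivity
      nlinarith [mul_nonneg h8 h7]
    _ = _ := by ring

private theorem maxi84 {k : ℝ → ℝ} (hk : Continuous k) (hk0 : ∀ α, 0 ≤ k α) {F : ((ℝ × ℝ) × ℝ) × ℝ → ℝ}
    (hF : Continuous F) (s R₀ : ℝ) {C : ℝ} (hC : 0 ≤ C) :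
    Continuous (fun c : ℝ × ℝ => ∫ α in A84 s, k α * (C * ∫ r in Icc R₀ (2 * R₀), F ((c, r), α))) ∧
      (∀ c : ℝ × ℝ, Continuous fun α => k α * (C * ∫ r in Icc R₀ (2 * R₀), F ((c, r), α))) ∧
      ∀ B : ℝ, (∀ α ∈ A84 s, ∫ q in (Icc (0 : ℝ) 1 ×ˢ Icc (0 : ℝ) 1) ×ˢ Icc R₀ (2 * R₀), F (q, α) ≤ B) →
        ∫ c in Icc (0 : ℝ) 1 ×ˢ Icc (0 : ℝ) 1, ∫ α in A84 s, k α * (C * ∫ r in Icc R₀ (2 * R₀), F ((c, r), α)) ≤
          (∫ α in A84 s, k α) * (C * B) := by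
  have hTc : IsCompact (Icc (0 : ℝ) 1 ×ˢ Icc (0 : ℝ) 1) := isCompact_Icc.prod isCompact_Icc
  have hPc : Continuous fun z : (ℝ × ℝ) × ℝ => k z.2 * (C * ∫ r in Icc R₀ (2 * R₀), F ((z.1, r), z.2)) := by
    have h1 : Continuous fun z : (ℝ × ℝ) × ℝ => ∫ r in Icc R₀ (2 * R₀), F ((z.1, r), z.2) := by
      refine continuous_parametric_integral_of_continuous
        (f := fun (z : (ℝ × ℝ) × ℝ) (r : ℝ) => F ((z.1, r), z.2)) ?_ isCompact_Icc
      have h2 : Continuous fun w : ((ℝ × ℝ) × ℝ) × ℝ => (((w.1.1, w.2), w.1.2) : ((ℝ × ℝ) × ℝ) × ℝ) := by fun_prop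
      exact hF.comp h2
    exact (hk.comp continuous_snd).mul (continuous_const.mul h1)
  refine ⟨continuous_parametric_integral_of_continuous
    (f := fun (c : ℝ × ℝ) (α : ℝ) => k α * (C * ∫ r in Icc R₀ (2 * R₀), F ((c, r), α))) hPc (A84_compact s),
    fun c => hPc.comp (Continuous.prodMk continuous_const continuous_id), ?_⟩
  intro B hB
  rw [fub84' hTc s hPc]
  have h2 : ∀ α ∈ A84 s, ∫ c in Icc (0 : ℝ) 1 ×ˢ Icc (0 : ℝ) 1, k α * (C * ∫ r in Icc R₀ (2 * R₀), F ((c, r), α)) ≤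
      k α * (C * B) := by
    intro α hα
    rw [integral_const_mul, integral_const_mul]
    refine mul_le_mul_of_nonneg_left (mul_le_mul_of_nonneg_left ?_ hC) (hk0 α)
    have h3 : IntegrableOn (fun q => F (q, α)) ((Icc (0 : ℝ) 1 ×ˢ Icc (0 : ℝ) 1) ×ˢ Icc R₀ (2 * R₀))
        (volume.prod volume) := by
      rw [← Measure.volume_eq_prod]
      exact (hF.comp (Continuous.prodMk continuous_id continuous_const)).continuousOn.integrableOn_compact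
        (hTc.prod isCompact_Icc)
    have h4 := setIntegral_prod (fun q => F (q, α)) h3
    rw [← Measure.volume_eq_prod] at h4
    rw [← h4]
    exact hB α hα
  have h6 : Continuous fun α => ∫ c in Icc (0 : ℝ) 1 ×ˢ Icc (0 : ℝ) 1,
      k α * (C * ∫ r in Icc R₀ (2 * R₀), F ((c, r), α)) :=
    continuous_parametric_integral_of_continuous
      (f := fun (α : ℝ) (c : ℝ × ℝ) => k α * (C * ∫ r in Icc R₀ (2 * R₀), F ((c, r), α)))
      (hPc.comp continuous_swap) hTc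
  have hint : ∀ h : ℝ → ℝ, Continuous h → Integrable h (volume.restrict (A84 s)) := fun h hh =>
    hh.continuousOn.integrableOn_compact (A84_compact s)
  refine (setIntegral_mono_on (hint _ h6) (hint _ (hk.mul continuous_const)) (A84_compact s).measurableSet
    h2).trans (le_of_eq ?_)
  exact integral_mul_const _ _

private theorem mean84 {k : ℝ → ℝ} (hk : Continuous k) (hk0 : ∀ α, 0 ≤ k α) {F : ((ℝ × ℝ) × ℝ) × ℝ → ℝ}
    (hF : Continuous F) (s : ℝ) {K : Set ((ℝ × ℝ) × ℝ)} (hK : IsCompact K) (B : ℝ)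
    (hB : ∀ α ∈ A84 s, ∫ q in K, F (q, α) ≤ B) :
    ∫ q in K, ∫ α in A84 s, k α * F (q, α) ≤ (∫ α in A84 s, k α) * B := by
  have hc2 : Continuous fun z : ((ℝ × ℝ) × ℝ) × ℝ => k z.2 * F z := (hk.comp continuous_snd).mul hF
  have h2 : ∫ q in K, ∫ α in A84 s, k α * F (q, α) = ∫ α in A84 s, ∫ q in K, k α * F (q, α) := fub84 hK s hc2
  rw [h2]
  have h3 : ∀ α ∈ A84 s, ∫ q in K, k α * F (q, α) ≤ k α * B := by
    intro α hα
    rw [integral_const_mul]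
    exact mul_le_mul_of_nonneg_left (hB α hα) (hk0 α)
  have h6 : Continuous fun α => ∫ q in K, k α * F (q, α) :=
    continuous_parametric_integral_of_continuous
      (f := fun (α : ℝ) (q : (ℝ × ℝ) × ℝ) => k α * F (q, α)) (hc2.comp continuous_swap) hK
  have hint : ∀ h : ℝ → ℝ, Continuous h → Integrable h (volume.restrict (A84 s)) := fun h hh =>
    hh.continuousOn.integrableOn_compact (A84_compact s)
  refine (setIntegral_mono_on (hint _ h6) (hint _ (hk.mul continuous_const)) (A84_compact s).measurableSet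
    h3).trans (le_of_eq ?_)
  exact integral_mul_const _ _

/-- integral of `D (λ ∑ i, f i + 1)` -/
private theorem lin84 {X : Type*} [MeasurableSpace X] {μ : Measure X} {f : Fin 3 → X → ℝ} {D l B V : ℝ} (hD : 0 ≤ D)
    (hl : 0 ≤ l) (hf : ∀ i, Integrable (f i) μ) (h1 : Integrable (fun _ : X => (1 : ℝ)) μ)
    (hV : ∫ _, (1 : ℝ) ∂μ = V) (hB : ∀ i, ∫ x, f i x ∂μ ≤ B) :
    ∫ x, D * (l * ∑ i, f i x + 1) ∂μ ≤ D * (l * (3 * B) + V) := by
  have h8 : Integrable (fun x => l * ∑ i, f i x) μ := (integrable_finsetSum _ fun i _ => hf i).const_mul l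
  rw [integral_const_mul, integral_add h8 h1, integral_const_mul, integral_finsetSum _ fun i _ => hf i, hV]
  refine mul_le_mul_of_nonneg_left (add_le_add (mul_le_mul_of_nonneg_left ?_ hl) le_rfl) hD
  have h10 : ∑ i, ∫ x, f i x ∂μ ≤ ∑ _i : Fin 3, B := Finset.sum_le_sum fun i _ => hB i
  rw [Finset.sum_const, Finset.card_univ, Fintype.card_fin, nsmul_eq_mul] at h10
  exact_mod_cast h10

private theorem core84 {H : ℝ → ℝ} (hH : ContDiff ℝ 2 H) (hga : ∃ Λ : ℝ, 1 ≤ Λ ∧ ∀ α t : ℝ, |ga H α t| ≤ Λ) {s C₀ : ℝ} (hs : 0 < s) (hC₀ : 0 < C₀) {m : ℕ} (hm : 1 ≤ m)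
    (hm6 : m ≤ 6) : ∃ D : ℝ, 1 ≤ D ∧ ∀ R₀ : ℝ, 1 ≤ R₀ → ∀ (n : ℕ) (L β : ℝ), 0 < β → 0 ≤ L →
      L * (β * 4 ^ n) ≤ C₀ → ∀ b : Fin 3 → ℝ → ℤ × ℤ → ℂ, (∀ i k, Continuous fun α => b i α k) →
      (∀ i α k, ‖b i α k‖ ≤ 1) → ∃ M : ℝ × ℝ → ℝ, Continuous M ∧
        (∀ c, ∀ R ∈ Icc R₀ (2 * R₀),
          (L * ∑ i, ∫ α in (-π)..π, k0 β α * T84 H n (b i) (c, R) α) ^ (2 * m) ≤ M c) ∧
        ∀ B : ℝ, 0 ≤ B → (∀ α, |sin α| ≤ s → ∀ a : ℤ × ℤ → ℂ, (∀ k, ‖a k‖ ≤ 1) →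
          ∫ q in (Icc (0 : ℝ) 1 ×ˢ Icc (0 : ℝ) 1) ×ˢ Icc R₀ (2 * R₀), ‖cs (blk n) a (ga H α) q‖ ^ (2 * m) ≤ B) →
          ∫ c in Icc (0 : ℝ) 1 ×ˢ Icc (0 : ℝ) 1, M c ≤ D * (L ^ (2 * m) * 2 ^ n * B + 1) ∧
          ∫ q in (Icc (0 : ℝ) 1 ×ˢ Icc (0 : ℝ) 1) ×ˢ Icc R₀ (2 * R₀),
            (L * ∑ i, ∫ α in (-π)..π, k0 β α * T84 H n (b i) q α) ^ (2 * m) ≤ D * (L ^ (2 * m) * B + R₀) := by
  obtain ⟨p, hpm, hp⟩ : ∃ p, 2 * m = p + 1 ∧ 1 ≤ p := ⟨2 * m - 1, by omega, by omega⟩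
  obtain ⟨Λ, C₂, hΛ, hC₂, hsup⟩ := sup_R hga
  obtain ⟨D, hD, hg⟩ := gpow84 hH hs hC₀ hp
  refine ⟨D * (120 * C₂ + 1), by nlinarith, ?_⟩
  intro R₀ hR₀ n L β hβ hL hLβ b hbc hb1
  have hgq := hg n L β hβ hL hLβ b hbc hb1
  have hTc : IsCompact (Icc (0 : ℝ) 1 ×ˢ Icc (0 : ℝ) 1) := isCompact_Icc.prod isCompact_Icc
  have hKc : IsCompact ((Icc (0 : ℝ) 1 ×ˢ Icc (0 : ℝ) 1) ×ˢ Icc R₀ (2 * R₀)) := hTc.prod isCompact_Icc
  obtain ⟨d, hd⟩ : ∃ d : Fin 3 → ℝ → ℤ × ℤ → ℂ, d = fun i α => da Λ n (ga H α) (b i α) := ⟨_, rfl⟩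
  have hdc : ∀ i k, Continuous fun α => d i α k := fun i k => by
    rw [hd]
    exact da_cont84 hH Λ n (hbc i) k
  have hd1 : ∀ i α k, ‖d i α k‖ ≤ 1 := fun i α k => by
    rw [hd]
    exact (hsup n α R₀ (b i α) hR₀ (hb1 i α)).1 k
  have hint : ∀ h : ℝ → ℝ, Continuous h → Integrable h (volume.restrict (A84 s)) := fun h hh =>
    hh.continuousOn.integrableOn_compact (A84_compact s)
  have hkc := k0c84 hβ
  have hk0 := k0n84 hβ
  have hTb : ∀ i, Continuous fun z : ((ℝ × ℝ) × ℝ) × ℝ => T84 H n (b i) z.1 z.2 ^ (p + 1) := fun i =>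
    (T84_cont hH n (hbc i)).pow _
  have hTd : ∀ i, Continuous fun z : ((ℝ × ℝ) × ℝ) × ℝ => T84 H n (d i) z.1 z.2 ^ (p + 1) := fun i =>
    (T84_cont hH n (hdc i)).pow _
  have hFc : ∀ i, Continuous fun z : ((ℝ × ℝ) × ℝ) × ℝ =>
      T84 H n (b i) z.1 z.2 ^ (p + 1) + T84 H n (d i) z.1 z.2 ^ (p + 1) := fun i => (hTb i).add (hTd i)
  have hCn : 0 ≤ C₂ * 2 ^ n := by positivity
  have hmax := fun i => maxi84 hkc hk0 (hFc i) s R₀ hCn
  have hLp : 0 ≤ L ^ (p + 1) := pow_nonneg hL _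
  have hD0 : 0 ≤ D := by linarith
  refine ⟨fun c => D * (L ^ (p + 1) * ∑ i, (∫ α in A84 s, k0 β α * (C₂ * 2 ^ n * ∫ r in Icc R₀ (2 * R₀),
    (T84 H n (b i) (c, r) α ^ (p + 1) + T84 H n (d i) (c, r) α ^ (p + 1)))) + 1), ?_, ?_, ?_⟩
  · exact continuous_const.mul ((continuous_const.mul (continuous_finsetSum _ fun i _ => (hmax i).1)).add
      continuous_const)
  · intro c R hR
    rw [hpm]
    refine (hgq (c, R)).trans ?_
    refine mul_le_mul_of_nonneg_left (add_le_add (mul_le_mul_of_nonneg_left ?_ hLp) le_rfl) hD0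
    refine Finset.sum_le_sum fun i _ => ?_
    unfold J84
    refine integral_mono (hint _ (hkc.mul ((Tα_cont84 hH n (hbc i) (c, R)).pow _)))
      (hint _ ((hmax i).2.1 c)) fun α => ?_
    have h3 := (hsup n α R₀ (b i α) hR₀ (hb1 i α)).2 m c hm hm6 R hR
    rw [hpm] at h3
    have h4 : T84 H n (b i) (c, R) α ^ (p + 1) ≤ C₂ * 2 ^ n * ∫ r in Icc R₀ (2 * R₀),
        (T84 H n (b i) (c, r) α ^ (p + 1) + T84 H n (d i) (c, r) α ^ (p + 1)) := by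
      rw [hd]
      exact h3
    exact mul_le_mul_of_nonneg_left h4 (hk0 α)
  · intro B hB hBq
    rw [hpm]
    have hkey : ∀ (a : ℝ → ℤ × ℤ → ℂ), (∀ α k, ‖a α k‖ ≤ 1) → ∀ α ∈ A84 s,
        ∫ q in (Icc (0 : ℝ) 1 ×ˢ Icc (0 : ℝ) 1) ×ˢ Icc R₀ (2 * R₀), T84 H n a q α ^ (p + 1) ≤ B := by
      intro a ha α hα
      have h := hBq α hα.2 (a α) (ha α)
      rw [hpm] at h
      exact h
    have hslice : ∀ {F : ((ℝ × ℝ) × ℝ) × ℝ → ℝ}, Continuous F → ∀ α : ℝ, IntegrableOn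
        (fun q => F (q, α)) ((Icc (0 : ℝ) 1 ×ˢ Icc (0 : ℝ) 1) ×ˢ Icc R₀ (2 * R₀)) := by
      intro F hF α
      exact (hF.comp (Continuous.prodMk continuous_id continuous_const)).continuousOn.integrableOn_compact hKc
    constructor
    · have h1 : ∀ i, ∫ c in Icc (0 : ℝ) 1 ×ˢ Icc (0 : ℝ) 1, (∫ α in A84 s, k0 β α * (C₂ * 2 ^ n *
          ∫ r in Icc R₀ (2 * R₀), (T84 H n (b i) (c, r) α ^ (p + 1) + T84 H n (d i) (c, r) α ^ (p + 1)))) ≤
          20 * (C₂ * 2 ^ n * (2 * B)) := by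
        intro i
        refine ((hmax i).2.2 (2 * B) fun α hα => ?_).trans
          (mul_le_mul_of_nonneg_right (k0_A84 hβ s) (by positivity))
        have h5 := integral_add (hslice (hTb i) α) (hslice (hTd i) α)
        refine h5.le.trans ?_
        linarith [hkey _ (hb1 i) α hα, hkey _ (hd1 i) α hα]
      have hV : ∫ _ in Icc (0 : ℝ) 1 ×ˢ Icc (0 : ℝ) 1, (1 : ℝ) = 1 := by
        rw [setIntegral_const, Measure.volume_eq_prod, measureReal_prod_prod,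
          Real.volume_real_Icc_of_le zero_le_one]
        norm_num
      have h7 := lin84 (μ := volume.restrict (Icc (0 : ℝ) 1 ×ˢ Icc (0 : ℝ) 1)) hD0 hLp
        (fun i => ((hmax i).1).continuousOn.integrableOn_compact hTc)
        (continuous_const.continuousOn.integrableOn_compact hTc) hV h1
      refine h7.trans ?_
      have h12 : 0 ≤ L ^ (p + 1) * 2 ^ n * B := by positivity
      have h13 : D * (L ^ (p + 1) * (3 * (20 * (C₂ * 2 ^ n * (2 * B)))) + 1) =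
          D * (120 * C₂ * (L ^ (p + 1) * 2 ^ n * B) + 1) := by ring
      rw [h13, mul_assoc D]
      refine mul_le_mul_of_nonneg_left ?_ hD0
      nlinarith
    · have h1 : ∀ i, ∫ q in (Icc (0 : ℝ) 1 ×ˢ Icc (0 : ℝ) 1) ×ˢ Icc R₀ (2 * R₀), J84 H s β n p (b i) q ≤ 20 * B := by
        intro i
        have h2 := mean84 hkc hk0 (hTb i) s hKc B (hkey _ (hb1 i))
        exact h2.trans (mul_le_mul_of_nonneg_right (k0_A84 hβ s) hB)
      have hJc : ∀ i, Continuous fun q => J84 H s β n p (b i) q := fun i =>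
        continuous_parametric_integral_of_continuous
          (f := fun (q : (ℝ × ℝ) × ℝ) (α : ℝ) => k0 β α * T84 H n (b i) q α ^ (p + 1))
          ((hkc.comp continuous_snd).mul (hTb i)) (A84_compact s)
      have hIv : ∀ i, Continuous fun q => ∫ α in (-π)..π, k0 β α * T84 H n (b i) q α := by
        intro i
        refine intervalIntegral.continuous_parametric_intervalIntegral_of_continuous'
          (f := fun (q : (ℝ × ℝ) × ℝ) (α : ℝ) => k0 β α * T84 H n (b i) q α) ?_ _ _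
        exact (hkc.comp continuous_snd).mul (T84_cont hH n (hbc i))
      have h2 : ∫ q in (Icc (0 : ℝ) 1 ×ˢ Icc (0 : ℝ) 1) ×ˢ Icc R₀ (2 * R₀),
          (L * ∑ i, ∫ α in (-π)..π, k0 β α * T84 H n (b i) q α) ^ (p + 1) ≤
          ∫ q in (Icc (0 : ℝ) 1 ×ˢ Icc (0 : ℝ) 1) ×ˢ Icc R₀ (2 * R₀),
            D * (L ^ (p + 1) * ∑ i, J84 H s β n p (b i) q + 1) := by
        refine integral_mono ?_ ?_ fun q => hgq q
        · exact ((continuous_const.mul (continuous_finsetSum _ fun i _ => hIv i)).pow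
            _).continuousOn.integrableOn_compact hKc
        · exact (continuous_const.mul ((continuous_const.mul (continuous_finsetSum _ fun i _ => hJc i)).add
            continuous_const)).continuousOn.integrableOn_compact hKc
      have hV : ∫ _ in (Icc (0 : ℝ) 1 ×ˢ Icc (0 : ℝ) 1) ×ˢ Icc R₀ (2 * R₀), (1 : ℝ) = R₀ := by
        rw [setIntegral_const, Measure.volume_eq_prod, measureReal_prod_prod, Measure.volume_eq_prod,
          measureReal_prod_prod, Real.volume_real_Icc_of_le zero_le_one, Real.volume_real_Icc_of_le (by linarith),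
          smul_eq_mul]
        ring
      have h7 := lin84 (μ := volume.restrict ((Icc (0 : ℝ) 1 ×ˢ Icc (0 : ℝ) 1) ×ˢ Icc R₀ (2 * R₀))) hD0 hLp
        (fun i => (hJc i).continuousOn.integrableOn_compact hKc)
        (continuous_const.continuousOn.integrableOn_compact hKc) hV h1
      refine h2.trans (h7.trans ?_)
      have h12 : 0 ≤ L ^ (p + 1) * B := by positivity
      rw [mul_assoc D]
      refine mul_le_mul_of_nonneg_left ?_ hD0
      nlinarith [mul_nonneg h12 (by linarith : (0:ℝ) ≤ C₂ - 1), mul_nonneg (by linarith : (0:ℝ) ≤ C₂) (by linarith : (0:ℝ) ≤ R₀)]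

private theorem lo84 {R N ε : ℝ} (hN : 1 ≤ N) (hR : N ≤ R) (hε : 0 < ε) :
    1 ≤ R ^ 4 * N ^ (-2 + ε) * (1 + N ^ 3 / R) ∧ R ≤ R ^ 4 * N ^ (-3 + ε) * (1 + N ^ 3 / R) ∧
      1 ≤ R ^ 7 * N ^ ε ∧ R ≤ R ^ 7 * N ^ (-1 + ε) := by
  have hN0 : 0 < N := by linarith
  have hR1 : 1 ≤ R := hN.trans hR
  have hR0 : 0 < R := by linarith
  have h1 : 1 / N ^ 2 ≤ N ^ (-2 + ε) := by
    have : N ^ (-2 : ℝ) ≤ N ^ (-2 + ε) := Real.rpow_le_rpow_of_exponent_le hN (by linarith)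
    rw [Real.rpow_neg hN0.le] at this
    rw [one_div]
    exact_mod_cast this
  have h2 : 1 / N ^ 3 ≤ N ^ (-3 + ε) := by
    have : N ^ (-3 : ℝ) ≤ N ^ (-3 + ε) := Real.rpow_le_rpow_of_exponent_le hN (by linarith)
    rw [Real.rpow_neg hN0.le] at this
    rw [one_div]
    exact_mod_cast this
  have h3 : 1 / N ≤ N ^ (-1 + ε) := by
    have : N ^ (-1 : ℝ) ≤ N ^ (-1 + ε) := Real.rpow_le_rpow_of_exponent_le hN (by linarith)
    rw [Real.rpow_neg hN0.le, Real.rpow_one] at this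
    rw [one_div]
    exact this
  have hW : 1 ≤ 1 + N ^ 3 / R := by
    have : 0 ≤ N ^ 3 / R := by positivity
    linarith
  have hW' : N ^ 3 / R ≤ 1 + N ^ 3 / R := by linarith
  refine ⟨?_, ?_, ?_, ?_⟩
  · have h4 : 1 ≤ R ^ 4 * (1 / N ^ 2) := by
      rw [mul_one_div, le_div_iff₀ (by positivity), one_mul]
      calc N ^ 2 ≤ R ^ 2 := pow_le_pow_left₀ hN0.le hR 2
        _ ≤ R ^ 4 := pow_le_pow_right₀ hR1 (by norm_num)
    have h5 : 1 ≤ R ^ 4 * N ^ (-2 + ε) := h4.trans (mul_le_mul_of_nonneg_left h1 (by positivity))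
    nlinarith
  · have h4 : R ^ 3 ≤ R ^ 4 * (1 / N ^ 3) * (N ^ 3 / R) := by
      apply le_of_eq
      field_simp
    have h5 : R ^ 4 * (1 / N ^ 3) * (N ^ 3 / R) ≤ R ^ 4 * N ^ (-3 + ε) * (1 + N ^ 3 / R) := by gcongr
    have h6 : R ≤ R ^ 3 := by
      calc R = R ^ 1 := (pow_one R).symm
        _ ≤ R ^ 3 := pow_le_pow_right₀ hR1 (by norm_num)
    linarith
  · have h4 : 1 ≤ R ^ 7 := one_le_pow₀ hR1
    have h5 : 1 ≤ N ^ ε := Real.one_le_rpow hN hε.le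
    nlinarith
  · have h4 : R ≤ R ^ 7 * (1 / N) := by
      rw [mul_one_div, le_div_iff₀ hN0]
      calc R * N ≤ R * R := mul_le_mul_of_nonneg_left hR hR0.le
        _ = R ^ 2 := by ring
        _ ≤ R ^ 7 := pow_le_pow_right₀ hR1 (by norm_num)
    exact h4.trans (mul_le_mul_of_nonneg_left h3 (by positivity))

private theorem ex84 {N ε : ℝ} (hN : 0 < N) :
    N ^ (-9 : ℝ) * N * N ^ (6 + ε) = N ^ (-2 + ε) ∧ N ^ (-9 : ℝ) * N ^ (6 + ε) = N ^ (-3 + ε) ∧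
      N ^ (-18 : ℝ) * N * N ^ (17 + ε) = N ^ ε ∧ N ^ (-18 : ℝ) * N ^ (17 + ε) = N ^ (-1 + ε) := by
  have h1 : ∀ a b : ℝ, N ^ a * N * N ^ b = N ^ (a + 1 + b) := fun a b => by
    rw [Real.rpow_add hN, Real.rpow_add hN, Real.rpow_one]
  refine ⟨?_, ?_, ?_, ?_⟩
  · rw [h1]; congr 1; ring
  · rw [← Real.rpow_add hN]; congr 1; ring
  · rw [h1]; congr 1; ring
  · rw [← Real.rpow_add hN]; congr 1; ring

private theorem asm84 {D a Y Z E C : ℝ} (hD : 0 ≤ D) (hZ : Z ≤ Y) (hY : 0 ≤ Y) (hE : E = D * (a + 1))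
    (hC : E ≤ C) : D * (a * Y + Z) ≤ C * Y := by
  calc D * (a * Y + Z) ≤ D * (a * Y + Y) := mul_le_mul_of_nonneg_left (by linarith) hD
    _ = E * Y := by rw [hE]; ring
    _ ≤ C * Y := mul_le_mul_of_nonneg_right hC hY

/-- the powers of `R₀` and `N = 2^n` in the moments -/
private theorem pw84 {C₀ R₀ N : ℝ} (hR : 0 < R₀) (hN : 0 < N) :
    (C₀ * R₀ ^ (1 / 2 : ℝ) * N ^ (-(3 / 2) : ℝ)) ^ 6 = C₀ ^ 6 * R₀ ^ 3 * N ^ (-9 : ℝ) ∧
      (C₀ * R₀ ^ (1 / 2 : ℝ) * N ^ (-(3 / 2) : ℝ)) ^ 12 = C₀ ^ 12 * R₀ ^ 6 * N ^ (-18 : ℝ) ∧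
      C₀ * R₀ ^ (1 / 2 : ℝ) * N ^ (-(3 / 2) : ℝ) * ((R₀ * N) ^ (-(1 / 2) : ℝ) * N ^ 2) = C₀ ∧
      N ^ (-(3 / 2) : ℝ) * N ^ 2 = N ^ (1 / 2 : ℝ) := by
  have e1 : ∀ (x : ℝ) (y : ℝ) (k : ℕ), 0 < x → (x ^ y) ^ k = x ^ (y * k) := fun x y k hx => by
    rw [← Real.rpow_natCast, ← Real.rpow_mul hx.le]
  refine ⟨?_, ?_, ?_, ?_⟩
  · rw [mul_pow, mul_pow, e1 _ _ _ hR, e1 _ _ _ hN]
    norm_num
  · rw [mul_pow, mul_pow, e1 _ _ _ hR, e1 _ _ _ hN]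
    norm_num
  · rw [Real.mul_rpow hR.le hN.le, ← Real.rpow_natCast N 2]
    have h1 : R₀ ^ (1 / 2 : ℝ) * R₀ ^ (-(1 / 2) : ℝ) = 1 := by
      rw [← Real.rpow_add hR]; norm_num
    have h2 : N ^ (-(3 / 2) : ℝ) * N ^ (-(1 / 2) : ℝ) * N ^ ((2 : ℕ) : ℝ) = 1 := by
      rw [← Real.rpow_add hN, ← Real.rpow_add hN]; norm_num
    calc C₀ * R₀ ^ (1 / 2 : ℝ) * N ^ (-(3 / 2) : ℝ) * (R₀ ^ (-(1 / 2) : ℝ) * N ^ (-(1 / 2) : ℝ) * N ^ ((2 : ℕ) : ℝ))
        = C₀ * (R₀ ^ (1 / 2 : ℝ) * R₀ ^ (-(1 / 2) : ℝ)) *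
          (N ^ (-(3 / 2) : ℝ) * N ^ (-(1 / 2) : ℝ) * N ^ ((2 : ℕ) : ℝ)) := by ring
      _ = C₀ := by rw [h1, h2]; ring
  · rw [← Real.rpow_natCast N 2, ← Real.rpow_add hN]
    norm_num

theorem blocks {H : ℝ → ℝ} (hH : IsSupp H) (h5 : ContDiff ℝ 5 H) (v : ℝ × ℝ) {φ : ℝ × ℝ → ℝ} (hφ : IsBump φ) {ε : ℝ} (hε : 0 < ε) : ∃ C : ℝ, 1 ≤ C ∧
    ∀ R₀ : ℝ, 1 ≤ R₀ → ∀ n : ℕ, (2 : ℝ) ^ n ≤ R₀ → ∀ δ ∈ Icc (0 : ℝ) 1, ∀ σ : ℝ, (σ = 1 ∨ σ = -1) →
      ∃ (G : (ℝ × ℝ) × ℝ → ℝ) (M6 M12 : ℝ × ℝ → ℝ), Continuous G ∧ Continuous M6 ∧ Continuous M12 ∧ (∀ q, 0 ≤ G q) ∧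
        (∀ c : ℝ × ℝ, ∀ R ∈ Icc R₀ (2 * R₀), (IsSupp (fun θ => R * H θ + σ * δ) → ‖VKc φ (fun θ => R * H θ + σ * δ) δ n (c.1 + R * v.1, c.2 + R * v.2)‖ ≤ G (c, R)) ∧
          G (c, R) ≤ C * R₀ ^ (1 / 2 : ℝ) * (2 : ℝ) ^ ((n : ℝ) / 2) ∧ G (c, R) ^ 6 ≤ M6 c ∧ G (c, R) ^ 12 ≤ M12 c) ∧
        ∫ c in Icc (0 : ℝ) 1 ×ˢ Icc (0 : ℝ) 1, M6 c ≤ C * R₀ ^ 4 * ((2 : ℝ) ^ n) ^ (-2 + ε) * (1 + 8 ^ n / R₀) ∧
        ∫ q in (Icc (0 : ℝ) 1 ×ˢ Icc (0 : ℝ) 1) ×ˢ Icc R₀ (2 * R₀), G q ^ 6 ≤ C * R₀ ^ 4 * ((2 : ℝ) ^ n) ^ (-3 + ε) * (1 + 8 ^ n / R₀) ∧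
        ((16 : ℝ) ^ n ≤ R₀ → ∫ c in Icc (0 : ℝ) 1 ×ˢ Icc (0 : ℝ) 1, M12 c ≤ C * R₀ ^ 7 * ((2 : ℝ) ^ n) ^ ε ∧
          ∫ q in (Icc (0 : ℝ) 1 ×ˢ Icc (0 : ℝ) 1) ×ˢ Icc R₀ (2 * R₀), G q ^ 12 ≤ C * R₀ ^ 7 * ((2 : ℝ) ^ n) ^ (-1 + ε)) := by
  obtain ⟨C₀, hC₀, hV⟩ := VKc_le hH hφ
  obtain ⟨s₁, K₁, hs₁, -, hK₁, h6⟩ := sixth_ga hH (h5.of_le (by norm_num)) hε
  obtain ⟨s₂, K₂, hs₂, -, hK₂, h12⟩ := twelfth_ga hH h5 hε
  have hs : 0 < min s₁ s₂ := lt_min hs₁ hs₂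
  have hHv : ContDiff ℝ 2 (shf H v) := Pool.Agent.Helper22.OV.shf_smooth v hH.smooth
  obtain ⟨D₁, hD₁, g1⟩ := core84 hHv (ga_bdd_shf hH v) hs hC₀ (m := 3) (by norm_num) (by norm_num)
  obtain ⟨D₂, hD₂, g2⟩ := core84 hHv (ga_bdd_shf hH v) hs hC₀ (m := 6) (by norm_num) (by norm_num)
  have hD₁0 : 0 ≤ D₁ := by linarith
  have hD₂0 : 0 ≤ D₂ := by linarith
  set E₁ := D₁ * (C₀ ^ 6 * K₁ + 1) with hE₁
  set E₂ := D₂ * (C₀ ^ 12 * K₂ + 1) with hE₂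
  have hE₁0 : 0 ≤ E₁ := by positivity
  have hE₂0 : 0 ≤ E₂ := by positivity
  obtain ⟨C, hC⟩ : ∃ C, C = 1 + 1500 * C₀ + E₁ + E₂ := ⟨_, rfl⟩
  have hC1 : 1 ≤ C := by rw [hC]; linarith
  have hCV : 1500 * C₀ ≤ C := by rw [hC]; linarith
  have hCE₁ : E₁ ≤ C := by rw [hC]; linarith
  have hCE₂ : E₂ ≤ C := by rw [hC]; linarith
  refine ⟨C, hC1, ?_⟩
  intro R₀ hR₀ n hn δ hδ σ hσ
  obtain ⟨b, hbc, hb1, hVb⟩ := hV R₀ hR₀ n δ hδ σ hσ
  have hR0 : 0 < R₀ := by linarith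
  obtain ⟨N, hN⟩ : ∃ N : ℝ, N = 2 ^ n := ⟨_, rfl⟩
  have hN1 : 1 ≤ N := by rw [hN]; exact one_le_pow₀ (by norm_num)
  have hN0 : 0 < N := by linarith
  have h4n : (4 : ℝ) ^ n = N ^ 2 := by rw [hN, ← pow_mul, mul_comm, pow_mul]; norm_num
  have h8n : (8 : ℝ) ^ n = N ^ 3 := by rw [hN, ← pow_mul, mul_comm, pow_mul]; norm_num
  have h2n : (2 : ℝ) ^ (-(3 / 2 : ℝ) * n) = N ^ (-(3 / 2) : ℝ) := by
    rw [hN, ← Real.rpow_natCast 2 n, ← Real.rpow_mul (by norm_num)]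
    congr 1
    ring
  have hhalf : (2 : ℝ) ^ ((n : ℝ) / 2) = N ^ (1 / 2 : ℝ) := by
    rw [hN, ← Real.rpow_natCast 2 n, ← Real.rpow_mul (by norm_num)]
    congr 1
    ring
  rw [← hN] at hn
  obtain ⟨p6, p12, pL, pN⟩ := pw84 (C₀ := C₀) hR0 hN0
  set L : ℝ := C₀ * R₀ ^ (1 / 2 : ℝ) * N ^ (-(3 / 2) : ℝ) with hL
  obtain ⟨β, hβd⟩ : ∃ β : ℝ, β = (R₀ * N) ^ (-(1 / 2) : ℝ) := ⟨_, rfl⟩
  have hβ : 0 < β := by rw [hβd]; positivity
  have hL0 : 0 ≤ L := by positivity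
  rw [← hβd] at pL
  have hLβ : L * (β * 4 ^ n) ≤ C₀ := by rw [h4n, pL]
  obtain ⟨M6, hM6c, hM6, hI6⟩ := g1 R₀ hR₀ n L β hβ hL0 hLβ b hbc hb1
  obtain ⟨M12, hM12c, hM12, hI12⟩ := g2 R₀ hR₀ n L β hβ hL0 hLβ b hbc hb1
  obtain ⟨y1, y2, y3, y4⟩ := lo84 hN1 hn hε
  obtain ⟨x1, x2, x3, x4⟩ := ex84 (ε := ε) hN0
  have h2R : R₀ + R₀ = 2 * R₀ := by ring
  refine ⟨fun q => L * ∑ i, ∫ α in (-π)..π, k0 β α * T84 (shf H v) n (b i) q α, M6, M12, ?_, hM6c, hM12c, ?_, ?_, ?_, ?_, ?_⟩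
  · refine continuous_const.mul (continuous_finsetSum _ fun i _ => ?_)
    refine intervalIntegral.continuous_parametric_intervalIntegral_of_continuous'
      (f := fun (q : (ℝ × ℝ) × ℝ) (α : ℝ) => k0 β α * T84 (shf H v) n (b i) q α) ?_ _ _
    exact ((k0c84 hβ).comp continuous_snd).mul (T84_cont hHv n (hbc i))
  · intro q
    exact mul_nonneg hL0 (Finset.sum_nonneg fun i _ => intervalIntegral.integral_nonneg (by linarith [pi_pos])
      fun α _ => mul_nonneg (k0n84 hβ α) (T84_nonneg _ _ _ _ _))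
  · intro c R hR
    refine ⟨fun hs => ?_, ?_, hM6 c R hR, hM12 c R hR⟩
    · have h := hVb R hR hs (c.1 + R * v.1, c.2 + R * v.2)
      rw [h2n, ← hN, ← hβd] at h
      refine h.trans (le_of_eq ?_)
      unfold T84
      simp only [cs_shf hH.smooth]
      rfl
    · have h1 : ∀ i, ∫ α in (-π)..π, k0 β α * T84 (shf H v) n (b i) (c, R) α ≤ 20 * (25 * 4 ^ n) := by
        intro i
        have h2 : ∫ α in (-π)..π, k0 β α * T84 (shf H v) n (b i) (c, R) α ≤ ∫ α in (-π)..π, k0 β α * (25 * 4 ^ n) := by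
          refine intervalIntegral.integral_mono_on (by linarith [pi_pos])
            (((k0c84 hβ).mul (Tα_cont84 hHv n (hbc i) (c, R))).intervalIntegrable _ _)
            (((k0c84 hβ).mul continuous_const).intervalIntegrable _ _) fun α _ => ?_
          exact mul_le_mul_of_nonneg_left (T84_le (shf H v) n (hb1 i) _ _) (k0n84 hβ α)
        rw [intervalIntegral.integral_mul_const] at h2
        exact h2.trans (mul_le_mul_of_nonneg_right (k0_int hβ) (by positivity))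
      have h3 : ∑ i, ∫ α in (-π)..π, k0 β α * T84 (shf H v) n (b i) (c, R) α ≤ ∑ _i : Fin 3, 20 * (25 * 4 ^ n) :=
        Finset.sum_le_sum fun i _ => h1 i
      rw [Finset.sum_const, Finset.card_univ, Fintype.card_fin, nsmul_eq_mul] at h3
      push_cast at h3
      have h4 := mul_le_mul_of_nonneg_left h3 hL0
      refine h4.trans ?_
      rw [hhalf, h4n]
      have h5 : L * (3 * (20 * (25 * N ^ 2))) = 1500 * C₀ * (R₀ ^ (1 / 2 : ℝ) * (N ^ (-(3 / 2) : ℝ) * N ^ 2)) := by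
        rw [hL]; ring
      rw [h5, pN, mul_assoc C]
      exact mul_le_mul_of_nonneg_right hCV (by positivity)
  · have hB := (hI6 (K₁ * R₀ * N ^ (6 + ε) * (1 + 8 ^ n / R₀)) (by positivity) (fun α hα a ha' => by
      have h := h6 n R₀ R₀ α hR₀ (hα.trans (min_le_left _ _)) a ha'
      rw [h2R, ← hN, ← mom_shf hH.smooth v] at h
      exact h)).1
    refine hB.trans ?_
    rw [h8n, ← hN]
    have e : L ^ (2 * 3) * N * (K₁ * R₀ * N ^ (6 + ε) * (1 + N ^ 3 / R₀)) =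
        C₀ ^ 6 * K₁ * (R₀ ^ 4 * N ^ (-2 + ε) * (1 + N ^ 3 / R₀)) := by
      rw [show 2 * 3 = 6 from rfl, p6, ← x1]
      ring
    rw [e]
    exact (asm84 hD₁0 y1 (by positivity) hE₁ hCE₁).trans (le_of_eq (by ring))
  · have hB := (hI6 (K₁ * R₀ * N ^ (6 + ε) * (1 + 8 ^ n / R₀)) (by positivity) (fun α hα a ha' => by
      have h := h6 n R₀ R₀ α hR₀ (hα.trans (min_le_left _ _)) a ha'
      rw [h2R, ← hN, ← mom_shf hH.smooth v] at h
      exact h)).2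
    refine hB.trans ?_
    rw [h8n]
    have e : L ^ (2 * 3) * (K₁ * R₀ * N ^ (6 + ε) * (1 + N ^ 3 / R₀)) =
        C₀ ^ 6 * K₁ * (R₀ ^ 4 * N ^ (-3 + ε) * (1 + N ^ 3 / R₀)) := by
      rw [show 2 * 3 = 6 from rfl, p6, ← x2]
      ring
    rw [e]
    exact (asm84 hD₁0 y2 (by positivity) hE₁ hCE₁).trans (le_of_eq (by rw [← hN]; ring))
  · intro h16
    have hB := hI12 (K₂ * R₀ * N ^ (17 + ε)) (by positivity) (fun α hα a ha' => by
      have h := h12 n R₀ R₀ α h16 (hα.trans (min_le_right _ _)) a ha'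
      rw [h2R, ← hN, ← mom_shf hH.smooth v] at h
      exact h)
    constructor
    · refine hB.1.trans ?_
      rw [← hN]
      have e : L ^ (2 * 6) * N * (K₂ * R₀ * N ^ (17 + ε)) = C₀ ^ 12 * K₂ * (R₀ ^ 7 * N ^ ε) := by
        rw [show 2 * 6 = 12 from rfl, p12, ← x3]
        ring
      rw [e]
      exact (asm84 hD₂0 y3 (by positivity) hE₂ hCE₂).trans (le_of_eq (by ring))
    · refine hB.2.trans ?_
      have e : L ^ (2 * 6) * (K₂ * R₀ * N ^ (17 + ε)) = C₀ ^ 12 * K₂ * (R₀ ^ 7 * N ^ (-1 + ε)) := by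
        rw [show 2 * 6 = 12 from rfl, p12, ← x4]
        ring
      rw [e]
      exact (asm84 hD₂0 y4 (by positivity) hE₂ hCE₂).trans (le_of_eq (by rw [← hN]; ring))

end Pool.Agent.Helper60.SVv
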