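import Pool.Agent.Helper60.SVv.H4
import Pool.Agent.Helper33.SVv.H5

/-!
# SVv-H5: almost every centre `c + R v`: exponent `7/12` and moment `14`
-/

open MeasureTheory Real Set Filter Topology

set_option autoImplicit false

namespace Pool.Agent.Helper60.SVv

open Pool.Agent.Helper22.AE (IsSupp)
open Pool.Agent.Helper42.AC (Ev Fix)

theorem ae_ev {H : ℝ → ℝ} (hH : IsSupp H) (h5 : ContDiff ℝ 5 H) (v : ℝ × ℝ) :
    ∀ᵐ c ∂(volume.restrict (Icc (0 : ℝ) 1 ×ˢ Icc (0 : ℝ) 1)), Fix (Ev H v c) (7 / 12) 14 := by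
  refine Pool.Agent.Helper33.SVv.ae_fix_of ?_
  have h := ae_all_iff.2 fun j : ℕ => ae_range hH h5 v (ε := 1 / ((j : ℝ) + 1)) (by positivity)
  filter_upwards [h] with c hc ε hε
  obtain ⟨j, hj⟩ := exists_nat_one_div_lt hε
  obtain ⟨N₀, hN₀⟩ := hc j
  refine ⟨N₀, fun N hN => ?_⟩
  obtain ⟨a, b⟩ := hN₀ N hN
  have h1 : (1 : ℝ) ≤ 2 ^ N := one_le_pow₀ (by norm_num)
  exact ⟨fun R hR => (a R hR).trans (Real.rpow_le_rpow_of_exponent_le h1 (by linarith)),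
    b.trans (Real.rpow_le_rpow_of_exponent_le h1 (by linarith))⟩

end Pool.Agent.Helper60.SVv
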