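import Pool.Agent.Helper22.AC.D6b
import Pool.Agent.Helper22.OV.Shift
import Pool.Agent.Helper60.SV.G4

/-!
# SVv: the moments for the shifted support functions
-/

open MeasureTheory Real Set Filter Topology

set_option autoImplicit false

namespace Pool.Agent.Helper60.SVv

open Pool.Agent.Helper22.AE
open Pool.Agent.Helper22.AC
open Pool.Agent.Helper22.OV (shf)

theorem ga_shf {H : ℝ → ℝ} (hH : ContDiff ℝ 2 H) (v : ℝ × ℝ) (α t : ℝ) :
    ga (shf H v) α t = ga H α t + (v.1 * cos t + v.2 * sin t) := by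
  have hd1 : HasDerivAt H (deriv H (t + α)) (t + α) := (hH.differentiable (by norm_num)).differentiableAt.hasDerivAt
  have e1 : deriv (shf H v) (t + α) = deriv H (t + α) + (v.1 * (-sin (t + α)) + v.2 * cos (t + α)) := by
    apply HasDerivAt.deriv
    unfold shf
    exact hd1.add (((hasDerivAt_cos (t + α)).const_mul v.1).add ((hasDerivAt_sin (t + α)).const_mul v.2))
  unfold ga
  rw [e1]
  unfold shf
  have e2 : cos t = cos (t + α) * cos α + sin (t + α) * sin α := by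
    rw [← cos_sub, add_sub_cancel_right]
  have e3 : sin t = sin (t + α) * cos α - cos (t + α) * sin α := by
    rw [← sin_sub, add_sub_cancel_right]
  rw [e2, e3]
  ring

theorem ga_bdd_shf {H : ℝ → ℝ} (hH : IsSupp H) (v : ℝ × ℝ) : ∃ Λ : ℝ, 1 ≤ Λ ∧ ∀ α t : ℝ, |ga (shf H v) α t| ≤ Λ := by
  obtain ⟨Λ, hΛ, h⟩ := ga_bdd hH
  refine ⟨Λ + (|v.1| + |v.2|), by
    have := abs_nonneg v.1
    have := abs_nonneg v.2
    linarith, fun α t => ?_⟩
  rw [ga_shf hH.smooth]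
  refine (abs_add_le _ _).trans (add_le_add (h α t) ((abs_add_le _ _).trans (add_le_add ?_ ?_)))
  · rw [abs_mul]
    exact mul_le_of_le_one_right (abs_nonneg _) (abs_cos_le_one t)
  · rw [abs_mul]
    exact mul_le_of_le_one_right (abs_nonneg _) (abs_sin_le_one t)

/-- the shear -/
def shr (v : ℝ × ℝ) (q : (ℝ × ℝ) × ℝ) : (ℝ × ℝ) × ℝ := ((q.1.1 + q.2 * v.1, q.1.2 + q.2 * v.2), q.2)

theorem shr_cont (v : ℝ × ℝ) : Continuous (shr v) := by
  unfold shr
  fun_prop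

theorem nk_cos (k : ℤ × ℤ) : nk k * cos (tk k) = k.1 := by
  have := Complex.norm_mul_cos_arg (cz k)
  unfold nk tk
  rw [this]
  rfl

theorem nk_sin (k : ℤ × ℤ) : nk k * sin (tk k) = k.2 := by
  have := Complex.norm_mul_sin_arg (cz k)
  unfold nk tk
  rw [this]
  rfl

theorem cs_shf {H : ℝ → ℝ} (hH : ContDiff ℝ 2 H) (v : ℝ × ℝ) (B : Finset (ℤ × ℤ)) (a : ℤ × ℤ → ℂ) (α : ℝ) (q : (ℝ × ℝ) × ℝ) :
    cs B a (ga (shf H v) α) q = cs B a (ga H α) (shr v q) := by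
  unfold cs shr
  refine Finset.sum_congr rfl fun k _ => ?_
  congr 2
  unfold Fk
  rw [ga_shf hH]
  have e1 := nk_cos k
  have e2 := nk_sin k
  simp only
  have e : nk k * (ga H α (tk k) + (v.1 * cos (tk k) + v.2 * sin (tk k))) =
      nk k * ga H α (tk k) + (v.1 * (nk k * cos (tk k)) + v.2 * (nk k * sin (tk k))) := by ring
  rw [e, e1, e2]
  ring

theorem ee_int (x : ℝ) (m : ℤ) : ee (x + m) = ee x := by
  unfold ee
  rw [show (((2 * π * (x + m) : ℝ) : ℂ) * Complex.I) = ((2 * π * x : ℝ) : ℂ) * Complex.I + m * (2 * π * Complex.I) by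
    push_cast
    ring]
  exact Complex.exp_periodic.int_mul m _

theorem cs_per (B : Finset (ℤ × ℤ)) (a : ℤ × ℤ → ℂ) (γ : ℝ → ℝ) (x y r : ℝ) :
    cs B a γ ((x + 1, y), r) = cs B a γ ((x, y), r) ∧ cs B a γ ((x, y + 1), r) = cs B a γ ((x, y), r) := by
  unfold cs
  constructor
  · refine Finset.sum_congr rfl fun k _ => ?_
    congr 1
    have := ee_int (-((k.1 : ℝ) * x + (k.2 : ℝ) * y + r * Fk γ k)) (-k.1)
    rw [← this]
    congr 1
    push_cast
    ring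
  · refine Finset.sum_congr rfl fun k _ => ?_
    congr 1
    have := ee_int (-((k.1 : ℝ) * x + (k.2 : ℝ) * y + r * Fk γ k)) (-k.2)
    rw [← this]
    congr 1
    push_cast
    ring

theorem cs_cont (B : Finset (ℤ × ℤ)) (a : ℤ × ℤ → ℂ) (γ : ℝ → ℝ) : Continuous fun q : (ℝ × ℝ) × ℝ => cs B a γ q := by
  unfold cs ee
  fun_prop

private theorem fub60 {f : (ℝ × ℝ) × ℝ → ℝ} (hf : Continuous f) (a b : ℝ) :
    ∫ q in (Icc (0 : ℝ) 1 ×ˢ Icc (0 : ℝ) 1) ×ˢ Icc a b, f q = ∫ r in Icc a b, ∫ x in (0 : ℝ)..1, ∫ y in (0 : ℝ)..1, f ((x, y), r) := by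
  have hK : IsCompact (Icc (0 : ℝ) 1 ×ˢ Icc (0 : ℝ) 1) := isCompact_Icc.prod isCompact_Icc
  have h1 : IntegrableOn f ((Icc (0 : ℝ) 1 ×ˢ Icc (0 : ℝ) 1) ×ˢ Icc a b) ((volume : Measure (ℝ × ℝ)).prod (volume : Measure ℝ)) :=
    hf.continuousOn.integrableOn_compact (hK.prod isCompact_Icc)
  rw [Measure.volume_eq_prod (ℝ × ℝ) ℝ, setIntegral_prod _ h1]
  have h2 : Integrable (fun q : (ℝ × ℝ) × ℝ => f q) (((volume : Measure (ℝ × ℝ)).restrict (Icc (0 : ℝ) 1 ×ˢ Icc (0 : ℝ) 1)).prod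
      ((volume : Measure ℝ).restrict (Icc a b))) := by
    rw [Measure.prod_restrict]
    exact h1
  have h3 := integral_integral_swap (f := fun (c : ℝ × ℝ) (r : ℝ) => f (c, r)) h2
  rw [h3]
  refine integral_congr_ae (Eventually.of_forall fun r => ?_)
  simp only
  have h4 : IntegrableOn (fun c : ℝ × ℝ => f (c, r)) (Icc (0 : ℝ) 1 ×ˢ Icc (0 : ℝ) 1) ((volume : Measure ℝ).prod (volume : Measure ℝ)) :=
    (hf.comp (by fun_prop : Continuous fun c : ℝ × ℝ => (c, r))).continuousOn.integrableOn_compact hK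
  rw [Measure.volume_eq_prod ℝ ℝ, setIntegral_prod _ h4]
  simp only [intervalIntegral.integral_of_le zero_le_one, integral_Icc_eq_integral_Ioc]

/-- translation over the unit square -/
private theorem trans60 {g : ℝ → ℝ → ℝ} (h1 : ∀ x y, g (x + 1) y = g x y) (h2 : ∀ x y, g x (y + 1) = g x y) (α β : ℝ) :
    ∫ x in (0 : ℝ)..1, ∫ y in (0 : ℝ)..1, g (x + α) (y + β) = ∫ x in (0 : ℝ)..1, ∫ y in (0 : ℝ)..1, g x y := by
  have e1 : ∀ x, ∫ y in (0 : ℝ)..1, g x (y + β) = ∫ y in (0 : ℝ)..1, g x y := by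
    intro x
    rw [intervalIntegral.integral_comp_add_right (fun y => g x y) β]
    have hp : Function.Periodic (fun y => g x y) 1 := fun y => h2 x y
    have := hp.intervalIntegral_add_eq β 0
    rw [zero_add] at this ⊢
    rw [← this]
    congr 1
    ring
  simp only [e1]
  obtain ⟨G, hG⟩ : ∃ G : ℝ → ℝ, G = fun x => ∫ y in (0 : ℝ)..1, g x y := ⟨_, rfl⟩
  have hGp : Function.Periodic G 1 := fun x => by
    rw [hG]
    simp only [h1]
  have e2 : ∫ x in (0 : ℝ)..1, G (x + α) = ∫ x in (0 : ℝ)..1, G x := by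
    rw [intervalIntegral.integral_comp_add_right G α]
    have := hGp.intervalIntegral_add_eq α 0
    rw [zero_add] at this ⊢
    rw [← this]
    congr 1
    ring
  rw [hG] at e2
  exact e2

theorem shear60 {f : (ℝ × ℝ) × ℝ → ℝ} (hf : Continuous f) (h1 : ∀ x y r, f ((x + 1, y), r) = f ((x, y), r))
    (h2 : ∀ x y r, f ((x, y + 1), r) = f ((x, y), r)) (v : ℝ × ℝ) (a b : ℝ) :
    ∫ q in (Icc (0 : ℝ) 1 ×ˢ Icc (0 : ℝ) 1) ×ˢ Icc a b, f (shr v q) = ∫ q in (Icc (0 : ℝ) 1 ×ˢ Icc (0 : ℝ) 1) ×ˢ Icc a b, f q := by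
  rw [fub60 hf, fub60 (f := fun q => f (shr v q)) (hf.comp (shr_cont v))]
  refine integral_congr_ae (Eventually.of_forall fun r => ?_)
  simp only
  unfold shr
  simp only
  exact trans60 (g := fun x y => f ((x, y), r)) (fun x y => h1 x y r) (fun x y => h2 x y r) (r * v.1) (r * v.2)

theorem mom_shf {H : ℝ → ℝ} (hH : ContDiff ℝ 2 H) (v : ℝ × ℝ) (B : Finset (ℤ × ℤ)) (a : ℤ × ℤ → ℂ) (α x y : ℝ) (p : ℕ) :
    ∫ q in (Icc (0 : ℝ) 1 ×ˢ Icc (0 : ℝ) 1) ×ˢ Icc x y, ‖cs B a (ga (shf H v) α) q‖ ^ p =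
      ∫ q in (Icc (0 : ℝ) 1 ×ˢ Icc (0 : ℝ) 1) ×ˢ Icc x y, ‖cs B a (ga H α) q‖ ^ p := by
  simp only [cs_shf hH]
  exact shear60 (f := fun q => ‖cs B a (ga H α) q‖ ^ p) ((cs_cont B a _).norm.pow p) (fun x y r => by
    simp only [(cs_per B a (ga H α) x y r).1]) (fun x y r => by
    simp only [(cs_per B a (ga H α) x y r).2]) v x y

end Pool.Agent.Helper60.SVv
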